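import Pool.Agent.KF.FinX
import Pool.Agent.KF.FamX
import Pool.Agent.KF.PTimeX

/-! An explicit language in P for which every deterministic program with an unlimited stack and `2 ^ S`
nodes that decides slightly more than half of the words of length `N` correctly needs
`c N log (N / S) / log log (N / S)` tests. -/

namespace Pool.Agent.Results.MP_994c82_lc.AverageCaseTime

open Pool.Agent.KNL Pool.Agent.KD Pool.Agent.KE

/-- **Average-case time of machines with small space and an unlimited stack.** The language `Lang` (the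
constant coefficient of `b * a ^ e` in a field with `2 ^ M` elements) is in P. There is `c > 0` such that,
if `N / S` is at least a constant, the following holds: if a deterministic program with a stack and at most
`2 ^ S` nodes decides more than `(1 / 2 + 2 ^ (-S)) 2 ^ N` of the words of length `N` correctly and, if it
accepts them, with at most `T` tests, then `T ≥ c N log (N / S) / log log (N / S)`. Moreover, for a constant
`c`, all `k ≥ 2`, all `N ≥ k ^ (c k)` and every deterministic program with a stack and at most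
`2 ^ (N / k ^ (c k))` nodes, the number of the words of length `N` for which acceptance with at most `k N`
tests agrees with membership in `Lang` differs from `2 ^ N / 2` by at most
`2 ^ (N - 4 N / k ^ (c k))`. -/
theorem result :
    InP Pool.Agent.KF.Lang ∧
      (∃ c x0 : ℝ, 0 < c ∧ 1 ≤ x0 ∧ ∀ N S : ℕ, 1 ≤ S → x0 * S ≤ N →
        ∀ (V Γ : Type) [Fintype V] (P : SBP V Γ (Fin N)), Det P → Fintype.card V ≤ 2 ^ S →
          ∀ (T : ℕ) (G : Finset (Fin N → Bool)), (∀ y ∈ G, Correct Pool.Agent.KF.Lang P T y) →
            (1 / 2 + 1 / 2 ^ S) * 2 ^ N < (G.card : ℝ) →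
            c * N * Real.log (N / S) / Real.log (Real.log (N / S)) ≤ T) ∧
      ∃ c : ℕ, ∀ k : ℕ, 2 ≤ k → ∀ N : ℕ, k ^ (c * k) ≤ N →
        ∀ (V Γ : Type) [Fintype V] (P : SBP V Γ (Fin N)), Det P →
          (Fintype.card V : ℝ) ≤ 2 ^ ((N : ℝ) / (k : ℝ) ^ (c * k)) →
          ∀ G : Finset (Fin N → Bool),
            (∀ y, y ∈ G ↔ ((∃ l, P.AccWalk y l ∧ l.length ≤ k * N) ↔
              Pool.Agent.KF.Lang (List.ofFn y))) →
            |(G.card : ℝ) - 2 ^ N / 2| ≤ 2 ^ N / 2 ^ (4 * (N : ℝ) / (k : ℝ) ^ (c * k)) :=
  ⟨Pool.Agent.KF.inP_lang,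
    Pool.Agent.KF.timeX splitStack Pool.Agent.KF.familyX,
    Pool.Agent.KF.agreeX splitStack Pool.Agent.KF.familyX⟩

end Pool.Agent.Results.MP_994c82_lc.AverageCaseTime
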