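import Pool.Agent.KMS.NDHorn
import Pool.Agent.KST.HornP
import Pool.Agent.KST.NP
import Pool.Agent.KCV.PT
import Pool.Agent.KCV.NP

/-! Time bounds for nondeterministic algorithms with small space and an unlimited stack, for the standard
complete problems for P, NP, coNP and PSPACE: the circuit value problem, circuit satisfiability, alternating
circuits, and Horn, general and quantified formulas with three literals per clause, and their complements. -/

namespace Pool.Agent.Results.MP_994c82_lc.CompleteNondeterminism

open Pool.Agent.KNL Pool.Agent.KCV Pool.Agent.KST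

open Classical in
/-- **Nondeterminism for complete problems of P, NP, coNP and PSPACE.** A word of length `N` is read as a
circuit with NAND gates (`KCV.val`) or as a formula with three literals per clause (`KST.Sats`); the number of
a wire or of a variable is written with `len N = Nat.log 2 N + 1` letters.

`Cvp` (circuit value) and `HornSat` are in P, `Csat` (circuit satisfiability) and `Sat3` are in NP. Let `K` be
any language that agrees with the value of circuits on all circuits whose value does not depend on the
variables (`Agrees K`: for example `Cvp`, `Csat` and `Qcirc`, the circuits with alternating quantifiers), or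
any language that agrees with satisfiability on all Horn formulas whose variables have even numbers
(`AgreesH K`: for example `HornSat`, `Sat3` and `Qbf3`, the formulas in which the variables with odd numbers
are quantified universally), and let `L` be `K` or the complement of `K`. There are constants `δ, x0 > 0`, the
same for all these languages, such that the following holds for all `N` and all `S ≥ 1` with
`r = N / (S * len N ^ 5) ≥ x0`: if a distribution on finitely many nondeterministic programs with a stack
and at most `2 ^ S` nodes, which accept only words of the language, accepts every word `y` of length `N` of the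
language by a walk with at most `T` tests with probability at least `2 ^ (-S)`, then `T ≥ N (log r) ^ δ`. -/
theorem result :
    InP Cvp ∧ InP HornSat ∧ Pool.Agent.NegLim.InNP (fun y => decide (Csat y)) ∧
      Pool.Agent.NegLim.InNP (fun y => decide (Sat3 y)) ∧
      (Agrees Cvp ∧ Agrees Csat ∧ Agrees Qcirc) ∧ (AgreesH HornSat ∧ AgreesH Sat3 ∧ AgreesH Qbf3) ∧
      ∃ δ x0 : ℝ, 0 < δ ∧ 1 ≤ x0 ∧ ∀ K L : List Bool → Prop, Agrees K ∨ AgreesH K →
        (L = K ∨ L = fun y => ¬ K y) →
        ∀ N S : ℕ, 1 ≤ S → x0 * (S * (len N : ℝ) ^ 5) ≤ N →
          ∀ (ι : Type) [Fintype ι] (w : ι → ℝ) (V Γ : ι → Type) [∀ i, Fintype (V i)]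
            (P : ∀ i, SBP (V i) (Γ i) (Fin N)), (∀ i, 0 ≤ w i) → ∑ i, w i = 1 →
            (∀ i, Fintype.card (V i) ≤ 2 ^ S ∧ ∀ y l, (P i).AccWalk y l → L (List.ofFn y)) →
            ∀ T : ℕ, (∀ y, L (List.ofFn y) →
              1 / 2 ^ S ≤ ∑ i, if ∃ l, (P i).AccWalk y l ∧ l.length ≤ T then w i else 0) →
              N * Real.log (N / (S * (len N : ℝ) ^ 5)) ^ δ ≤ T := by
  refine ⟨inP_Cvp, inP_HornSat, inNP_Csat, inNP_Sat3, ⟨agrees_cvp, agrees_csat, agrees_qcirc⟩,
    ⟨agreesH_hornSat, agreesF_sat3.horn, agreesF_qbf3.horn⟩, ?_⟩
  obtain ⟨δ, x0, hδ, hx0, h⟩ := Pool.Agent.KMS.hardN_all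
  refine ⟨δ, x0, hδ, hx0, ?_⟩
  rintro K L hK (rfl | rfl)
  · exact h _ (Or.inl hK)
  · exact h (fun y => ¬ K y) (Or.inr (by simpa only [not_not] using hK))

end Pool.Agent.Results.MP_994c82_lc.CompleteNondeterminism
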