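import Pool.Agent.KST.HAll
import Pool.Agent.KST.HornP
import Pool.Agent.KST.NP
import Pool.Agent.KCV.PT
import Pool.Agent.KCV.NP

/-! Time bounds for randomised algorithms with two-sided error, small space and an unlimited stack, for
the standard complete problems for P, NP and PSPACE: the circuit value problem, circuit satisfiability,
alternating circuits, and Horn, general and quantified formulas with three literals per clause. -/

namespace Pool.Agent.Results.MP_994c82_lc.CompleteProblems

open Pool.Agent.KNL Pool.Agent.KD Pool.Agent.KCV Pool.Agent.KST
open Pool.Agent.KMQ (Halt Answers)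

open Classical in
/-- **Complete problems for P, NP and PSPACE.** A word of length `N` is read as a circuit with NAND gates
(`KCV.val`) or as a formula with three literals per clause (`KST.Sats`); the number of a wire or of a variable
is written with `len N = Nat.log 2 N + 1` letters.

`Cvp` (circuit value) and `HornSat` are in P, `Csat` (circuit satisfiability) and `Sat3` are in NP. Let `L` be
any language that agrees with the value of circuits on all circuits whose value does not depend on the
variables (`Agrees L`: for example `Cvp`, `Csat` and `Qcirc`, the circuits with alternating quantifiers), or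
any language that agrees with satisfiability on all Horn formulas whose variables have even numbers
(`AgreesH L`: for example `HornSat`, `Sat3` and `Qbf3`, the formulas in which the variables with odd numbers
are quantified universally). There are constants `c, x0 > 0`, the same for all these languages, such that for
all `N`, all `S ≥ 1` with `r = N / (S * len N ^ 5) ≥ x0` and all `η ≥ 2 ^ (-S)` the following holds: if a
distribution on finitely many deterministic programs with a stack and at most `2 ^ S` nodes answers the
question whether `y` is in `L` correctly and with at most `T` tests with probability at least `1 / 2 + η`,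
for every word `y` of length `N`, then `T ≥ c η N log r / log log r`. -/
theorem result :
    InP Cvp ∧ InP HornSat ∧ Pool.Agent.NegLim.InNP (fun y => decide (Csat y)) ∧
      Pool.Agent.NegLim.InNP (fun y => decide (Sat3 y)) ∧
      (Agrees Cvp ∧ Agrees Csat ∧ Agrees Qcirc) ∧ (AgreesH HornSat ∧ AgreesH Sat3 ∧ AgreesH Qbf3) ∧
      ∃ c x0 : ℝ, 0 < c ∧ 1 ≤ x0 ∧ ∀ L : List Bool → Prop, Agrees L ∨ AgreesH L →
        ∀ (N S : ℕ) (η : ℝ), 1 ≤ S → x0 * (S * (len N : ℝ) ^ 5) ≤ N → 1 / 2 ^ S ≤ η →
          ∀ (ι : Type) [Fintype ι] (w : ι → ℝ) (V Γ : ι → Type) [∀ i, Fintype (V i)]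
            (P : ∀ i, SBP (V i) (Γ i) (Fin N)) (rej : ∀ i, V i), (∀ i, 0 ≤ w i) → ∑ i, w i = 1 →
            (∀ i, Det (P i) ∧ Halt (P i) (rej i) ∧ rej i ≠ (P i).acc ∧
              Fintype.card (V i) ≤ 2 ^ S) →
            ∀ T : ℕ, (∀ y, 1 / 2 + η ≤ ∑ i, if Answers L (P i) (rej i) T y then w i else 0) →
              c * η * N * Real.log (N / (S * (len N : ℝ) ^ 5)) /
                Real.log (Real.log (N / (S * (len N : ℝ) ^ 5))) ≤ T :=
  ⟨inP_Cvp, inP_HornSat, inNP_Csat, inNP_Sat3, ⟨agrees_cvp, agrees_csat, agrees_qcirc⟩,
    ⟨agreesH_hornSat, agreesF_sat3.horn, agreesF_qbf3.horn⟩, hard_all⟩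

end Pool.Agent.Results.MP_994c82_lc.CompleteProblems
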