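import Pool.Agent.KQL.ComplS
import Pool.Agent.KQL.PTime
import Pool.Agent.KD.Inst

/-! A language in P whose complement is accepted by nondeterministic programs of polynomial size that
test at most `N` variables, but which needs `c N log (N / S) / log log (N / S)` tests on deterministic
programs with an unlimited stack and `2 ^ S` nodes. -/

namespace Pool.Agent.Results.MP_994c82_lc.DeterministicTime

open Pool.Agent.KNL Pool.Agent.KD

/-- **Deterministic machines with small space, even with an unlimited stack, need time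
`c N log (N / S) / log log (N / S)` for a language in P.** There is a language `L` in P such that the
complement of `L` is computed by nondeterministic programs without a stack, with at most `(N+2)^12`
nodes, that test at most `N` variables; but there is `c > 0` such that every deterministic program with a
stack and with at most `2 ^ S` nodes for `L` on words of length `N`, in which every accepted word is
accepted with at most `T` tests, satisfies `T ≥ c N log (N / S) / log log (N / S)`, if `N / S` is at least
a constant. Moreover, for a constant `c` and all `k ≥ 2` and `N ≥ k ^ (c k)`, deterministic programs with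
at most `2 ^ (N / k ^ (c k))` nodes that accept only words of `L` accept with at most `k N` tests at most
a fraction `2 ^ (-N / k ^ (c k))` of a suitable set `A` of words of `L`. -/
theorem result :
    ∃ L : List Bool → Prop, InP L ∧
      (∀ N : ℕ, ∃ (V : Type) (_ : Fintype V) (P : SBP V Empty (Fin N)),
        Fintype.card V ≤ (N + 2) ^ 12 ∧ (∀ y, (∃ l, P.AccWalk y l) ↔ ¬ L (List.ofFn y)) ∧
        ∀ y l, P.AccWalk y l → l.length ≤ N) ∧
      (∃ c x0 : ℝ, 0 < c ∧ 1 ≤ x0 ∧ ∀ N S : ℕ, 1 ≤ S → x0 * S ≤ N →
        ∀ (V Γ : Type) [Fintype V] (P : SBP V Γ (Fin N)), Det P → Fintype.card V ≤ 2 ^ S →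
          (∀ y, (∃ l, P.AccWalk y l) ↔ L (List.ofFn y)) →
          ∀ T : ℕ, (∀ y, L (List.ofFn y) → ∃ l, P.AccWalk y l ∧ l.length ≤ T) →
            c * N * Real.log (N / S) / Real.log (Real.log (N / S)) ≤ T) ∧
      ∃ c : ℕ, ∀ k : ℕ, 2 ≤ k → ∀ N : ℕ, k ^ (c * k) ≤ N →
        ∃ A : Finset (Fin N → Bool), A.Nonempty ∧ (∀ y ∈ A, L (List.ofFn y)) ∧
          ∀ (V Γ : Type) [Fintype V] (P : SBP V Γ (Fin N)), Det P →
            (Fintype.card V : ℝ) ≤ (2 : ℝ) ^ ((N : ℝ) / (k : ℝ) ^ (c * k)) →
            (∀ y l, P.AccWalk y l → L (List.ofFn y)) →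
            ∀ S ⊆ A, (∀ y ∈ S, ∃ l, P.AccWalk y l ∧ l.length ≤ k * N) →
              (S.card : ℝ) ≤ (2 : ℝ) ^ (-((N : ℝ) / (k : ℝ) ^ (c * k))) * A.card :=
  ⟨Pool.Agent.KQL.Lang, Pool.Agent.KQL.inP_lang, Pool.Agent.KQL.compl_stack,
    time_of_quant quant, quant⟩

end Pool.Agent.Results.MP_994c82_lc.DeterministicTime
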