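import Pool.Agent.FZ.Det
import Pool.Agent.FZ.NLUp
import Pool.Agent.FZ.AltUp
import Pool.Agent.FZ.LFin
import Pool.Agent.FZ.PFin
import Pool.Agent.FZ.PTime

/-! # The chain L, NL, P is strict for computations that read few zeros

Definitions (in `Defs.lean`, `AltDefs.lean` and `NLDefs.lean` of `Pool/Agent/FZ`).

* `Prog V W`: a program over the variables `V` with node set `W`: a directed graph with source and
  accepting node, whose edges are unlabelled or labelled by a literal `v = b`.
* `P.Accepts x`: there is a walk from the source to the accepting node all of whose labels are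
  satisfied by `x` (nondeterministic branching programs); `P.AcceptsReading x k`: there is such a walk
  in which the labels `v = 0` concern at most `k` variables.
* `P.Symm`: the reverse of every edge is an edge with the same label; `P.undirected`: all reverse
  edges are added; `P.Det`: on every input at most one step leaves each node, and none leaves the
  accepting node; `P.Mono`: no label `v = 0`.
* `P.AltAccepts U x`: acceptance if the nodes in `U` are universal (all their unlabelled edges have to
  lead to acceptance; alternating programs of polynomial size are P/poly).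
* `InNL L`: the language is in NL in the form given by Immerman: a word of length `N` is in `L` iff
  there is a walk from `(0, …, 0)` to `(N, …, N)` in a graph on the `k`-tuples of numbers up to `N`
  whose edges are defined by a first-order formula about addition, multiplication and the bits of
  the word.
* `InP L` (`Pool/Agent/KNL/Model.lean`): a Turing machine (Mathlib's `TM2`) decides `L` in polynomial
  time.
-/

namespace Pool.Agent.Results.MP_994c82_lc.FewZerosChain

open Pool.Agent.FZ Pool.Agent.KNL

open Classical in
/-- (0) An input of length `N` which is accepted at all is accepted reading at most `N` zeros; making a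
program undirected keeps what it accepts reading at most `k` zeros and, if the program is
deterministic, does not change the accepted inputs.

There are a constant `c`, a language `L` in NL, accepted by nondeterministic programs with at most
`(N + 1) ^ 2` nodes without labels `v = 0`, and a language `L'` in P, accepted by alternating programs
with at most `(N + 2) ^ c` nodes without labels `v = 0`, such that for all `s ≥ c` and `N ≥ s ^ c`:

(1) **L versus NL.** There is a nonempty set `A` of words of length `N` in `L` such that every symmetric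
program with at most `s ^ (log s)` nodes (logarithm to the base 2, rounded down) which accepts only
words of `L` accepts at most a fraction `2 ^ (- N / s ^ c)` of `A` reading at most `N / s ^ c` zeros.

(2) **NL versus P.** There is a nonempty set `A` of words of length `N` in `L'` such that every
nondeterministic program with at most `2 ^ s` nodes which accepts only words of `L'` accepts at most a
fraction `2 ^ (- N / s ^ c)` of `A` reading at most `N / s ^ c` zeros. -/
theorem result :
    ((∀ (V W : Type) [Fintype V] (P : Prog V W) (x : V → Bool), P.Accepts x →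
        P.AcceptsReading x (Fintype.card V)) ∧
      ∀ (V W : Type) (P : Prog V W), P.undirected.Symm ∧
        (∀ x k, P.AcceptsReading x k → P.undirected.AcceptsReading x k) ∧
        (P.Det → ∀ x, P.undirected.Accepts x ↔ P.Accepts x)) ∧
    ∃ (L L' : List Bool → Prop) (c : ℕ),
      InNL L ∧
      (∀ N : ℕ, ∃ (W : Type) (_ : Fintype W) (P : Prog (Fin N) W),
        Fintype.card W ≤ (N + 1) ^ 2 ∧ P.Mono ∧ ∀ x, P.Accepts x ↔ L (List.ofFn x)) ∧
      InP L' ∧
      (∀ N : ℕ, ∃ (W : Type) (_ : Fintype W) (P : Prog (Fin N) W) (U : Set W),
        Fintype.card W ≤ (N + 2) ^ c ∧ P.Mono ∧ ∀ x, P.AltAccepts U x ↔ L' (List.ofFn x)) ∧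
      ∀ s N : ℕ, c ≤ s → s ^ c ≤ N →
        (∃ A : Finset (Fin N → Bool), A.Nonempty ∧ (∀ x ∈ A, L (List.ofFn x)) ∧
          ∀ (W : Type) [Fintype W] (P : Prog (Fin N) W), Fintype.card W ≤ s ^ Nat.log 2 s →
            P.Symm → (∀ x, P.Accepts x → L (List.ofFn x)) →
            (A.filter fun x => P.AcceptsReading x (N / s ^ c)).card * 2 ^ (N / s ^ c)
              ≤ A.card) ∧
        ∃ A : Finset (Fin N → Bool), A.Nonempty ∧ (∀ x ∈ A, L' (List.ofFn x)) ∧
          ∀ (W : Type) [Fintype W] (P : Prog (Fin N) W), Fintype.card W ≤ 2 ^ s →
            (∀ x, P.Accepts x → L' (List.ofFn x)) →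
            (A.filter fun x => P.AcceptsReading x (N / s ^ c)).card * 2 ^ (N / s ^ c)
              ≤ A.card := by
  refine ⟨⟨fun _ _ _ P x h => acceptsReading_card P x h, fun _ _ P =>
    ⟨undirected_symm P, undirected_reading P, fun hP => det_undirected P hP⟩⟩, ?_⟩
  obtain ⟨c1, h1⟩ := l_lower
  obtain ⟨c2, h2⟩ := p_lower
  have key : ∀ {c c' s N : ℕ}, c ≤ c' → c' ≤ s → s ^ c' ≤ N → s ^ c ≤ N ∧
      N / s ^ c' ≤ N / s ^ c := by
    intro c c' s N hc hs hN
    rcases Nat.eq_zero_or_pos s with h0 | h0
    · have : c' = 0 := by omega
      have : c = 0 := by omega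
      subst_vars
      exact ⟨hN, le_rfl⟩
    · have h3 : s ^ c ≤ s ^ c' := Nat.pow_le_pow_right h0 hc
      exact ⟨h3.trans hN, Nat.div_le_div_left h3 (pow_pos h0 _)⟩
  have mono : ∀ {N k k' : ℕ} {A : Finset (Fin N → Bool)} {W : Type} (P : Prog (Fin N) W),
      k' ≤ k → (A.filter fun x => P.AcceptsReading x k).card * 2 ^ k ≤ A.card →
      (A.filter fun x => P.AcceptsReading x k').card * 2 ^ k' ≤ A.card := by
    intro N k k' A W P hk h
    refine le_trans (Nat.mul_le_mul (Finset.card_le_card fun x hx => ?_)
      (Nat.pow_le_pow_right (by norm_num) hk)) h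
    rw [Finset.mem_filter] at hx ⊢
    obtain ⟨Z, hZ, ha⟩ := hx.2
    exact ⟨hx.1, Z, hZ.trans hk, ha⟩
  obtain ⟨c3, h3⟩ := l2_program
  refine ⟨L1, L2, max c3 (max c1 c2), inNL_L1, l1_program, inP_L2, fun N => ?_,
    fun s N hs hN => ⟨?_, ?_⟩⟩
  · obtain ⟨W, hW, P, U, hc, hP⟩ := h3 N
    exact ⟨W, hW, P, U, hc.trans (Nat.pow_le_pow_right (by omega) (le_max_left _ _)), hP⟩
  · have hc : c1 ≤ max c3 (max c1 c2) := le_trans (le_max_left _ _) (le_max_right _ _)
    obtain ⟨h3, h4⟩ := key hc hs hN
    obtain ⟨A, hA, hAL, h⟩ := h1 s N (hc.trans hs) h3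
    exact ⟨A, hA, hAL, fun W _ P hW hP hPL => mono P h4 (h W P hW hP hPL)⟩
  · have hc : c2 ≤ max c3 (max c1 c2) := le_trans (le_max_right _ _) (le_max_right _ _)
    obtain ⟨h3, h4⟩ := key hc hs hN
    obtain ⟨A, hA, hAL, h⟩ := h2 s N (hc.trans hs) h3
    exact ⟨A, hA, hAL, fun W _ P hW hPL => mono P h4 (h W P hW hPL)⟩

end Pool.Agent.Results.MP_994c82_lc.FewZerosChain
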