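import Pool.Agent.KH.Up
import Pool.Agent.KH.Fin

/-! One guess and polylogarithmic time against superlinear time with two-sided error, small space and an
unlimited stack, for a language in P. -/

namespace Pool.Agent.Results.MP_994c82_lc.GuessTime

open Pool.Agent.KNL Pool.Agent.KD Pool.Agent.KE Pool.Agent.KH

open Classical in
/-- **One guess against superlinear time with two-sided error.** For `s : ℕ → ℕ` let `L s` be the
language of the words that consist, with `n = s N` for the length `N`, of the coefficients of a cubic
form in `n` variables over the field with two elements and of points of `n` bits each at which the form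
vanishes.

* `L s` is in P for the largest `n` with `2 n ^ d ≤ N`, and for `n = (log N) ^ d`.
* The words of length `N` that are not in `L s` are accepted by a nondeterministic program without stack
  and with at most `4 (N + 1) ^ 2` nodes that guesses once, one of at most `N` edges of the source, is
  deterministic afterwards, and makes `4 n ^ 3` tests in every accepting walk: a polylogarithmic number
  for `n = (log N) ^ d`, at most `4 N ^ (3 / d)` for the largest `n` with `2 n ^ d ≤ N`.
* There is `c > 0` such that the following holds if `n / S` is at least a constant, `2 n ^ 3 ≤ N` and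
  `2 ^ (-S) ≤ η`. If a finite distribution on deterministic programs with a stack and at most `2 ^ S`
  nodes decides every word of length `N` with probability at least `1 / 2 + η` correctly and, if it is
  accepted, with at most `T` tests, then `T ≥ c η N log (n / S) / log log (n / S)`. -/
theorem result :
    (∀ d : ℕ, InP (L (root d)) ∧ InP (L (lg d))) ∧
      (∀ (s : ℕ → ℕ) (N : ℕ), ∃ (V : Type) (_ : Fintype V) (P : SBP V Empty (Fin N)) (m : ℕ),
        Fintype.card V ≤ 4 * (N + 1) ^ 2 ∧ m ≤ N ∧ GuessOnce P m ∧
          (∀ y, (∃ l, P.AccWalk y l) ↔ ¬ L s (List.ofFn y)) ∧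
          ∀ y l, P.AccWalk y l → l.length = 4 * s N ^ 3) ∧
      ∃ c x0 : ℝ, 0 < c ∧ 1 ≤ x0 ∧ ∀ (s : ℕ → ℕ) (N S : ℕ) (η : ℝ), 1 ≤ S → x0 * S ≤ s N →
        2 * s N ^ 3 ≤ N → 1 / 2 ^ S ≤ η →
        ∀ (ι : Type) [Fintype ι] (w : ι → ℝ) (V Γ : ι → Type) [∀ i, Fintype (V i)]
          (P : ∀ i, SBP (V i) (Γ i) (Fin N)), (∀ i, 0 ≤ w i) → ∑ i, w i = 1 →
          (∀ i, Det (P i) ∧ Fintype.card (V i) ≤ 2 ^ S) →
          ∀ T : ℕ, (∀ y, 1 / 2 + η ≤ ∑ i, if Correct (L s) (P i) T y then w i else 0) →
            c * η * N * Real.log (s N / S) / Real.log (Real.log (s N / S)) ≤ T :=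
  ⟨fun d => ⟨inP_root d, inP_lg d⟩,
    fun s N => ⟨_, inferInstance, up N (s N) (pts (s N) N), pts (s N) N, up_card _ _, pts_le _ _,
      up_guess _ _ _, fun y => (up_spec s N y).1, fun y l h => (up_spec s N y).2 l h⟩,
    time_low⟩

end Pool.Agent.Results.MP_994c82_lc.GuessTime
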