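import Pool.Agent.TeleNeg.GridNet

/-!
# Path systems are hard on average for networks whose NOT gates rarely change

Definitions (`Pool/Agent/TeleNeg/NetDefs.lean`, `Pool/Agent/TeleNeg/DirDefs.lean`,
`Pool/Agent/TeleNeg/ChangeDefs.lean`): a monotone network `Net ι S` has `S` nodes and contacts
labelled by variables (or always closed). Used as a switching network (`val`) its contacts are
undirected, and it accepts an input when its source and target are connected by closed contacts;
used as a directed network (`dval`) it accepts when its target can be reached from its source by
closed contacts in their direction. A `Device ι S T` has levels of NOT gates; the input of each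
gate is computed by such a network whose contacts are labelled by variables and by outputs of NOT
gates of earlier levels; the device has `T` output networks of the same kind. `negs` is the number
of NOT gates and `weight` the product of the numbers `tᵢ + 1`, where `tᵢ` is the number of NOT
gates of the level `i`. `ChangesAtMost a` (undirected) and `DChangesAtMost a` (directed) say that
along every increasing sequence of inputs the list of the outputs of the NOT gates changes at most
`a` times. `Rule r H M` is the set of rules of the layered path system with `r` blocks and `M`
atoms at each point of the grid `{0, ..., H}²` (an atom at `(a, b)` may be derived from one at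
`(a + 1, b)` and one at `(a, b + 1)`), and `Solvable x` says that the goal can be derived by the
rules `e` with `x e = true`, which can be decided in polynomial time.

Polynomial size directed networks with negated variables are the nonuniform version of
nondeterministic logarithmic space, and each of them is such a device of polynomial size with at
most `n` changes (`n` is the number of variables). Monotone formulas of size `s` are undirected
networks with at most `s + 1` nodes.
-/

namespace Pool.Agent.Held994.PathSystemsFewNegations

open Pool.Agent.TeleNeg Finset
open scoped BigOperators

open Classical in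
/-- (1) The layered path system with `r` blocks of side `H + 1` and `M = 2 ^ 8 (H + 1) ^ 3` atoms
per point has at most `r 2 ^ 24 (H + 1) ^ 11` rules. (2) The outputs of levels of `t₁, t₂, ...` NOT
gates change at most `∏ (tᵢ + 1) - 1` times. (3) There is a probability distribution `μ` on the
sets of rules such that the following holds for all `a` and `T` and every Boolean function `h` of
`T` bits. For every device whose networks are used as undirected ones with
`r (negs + 1) S ≤ 2 ^ H`, and for every device whose networks are used as directed ones with
`r ^ 2 2 ^ 24 (H + 1) ^ 11 (negs + 1) (2 S) ^ ⌈log₂ S⌉ ≤ 2 ^ H`: if its NOT outputs change at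
most `a` times along every increasing sequence of inputs, then the `μ`-probability that `h` of its
`T` outputs tells correctly whether the goal can be derived is at most
`1 / 2 + 3 (T + 1) (a + 1) / (2 r)`. -/
theorem result (r H M : ℕ) (hr : 1 ≤ r) (hH : 6 ≤ H) (hM : M = 2 ^ 8 * (H + 1) ^ 3) :
    Nat.card (Rule r H M) ≤ r * (2 ^ 24 * (H + 1) ^ 11) ∧
    (∀ (S T : ℕ) (D : Device (Rule r H M) S T),
      D.ChangesAtMost (D.weight - 1) ∧ D.DChangesAtMost (D.weight - 1)) ∧
    ∃ μ : (Rule r H M → Bool) → ℝ, (∀ x, 0 ≤ μ x) ∧ ∑ x, μ x = 1 ∧
      (∀ (S T a : ℕ) (D : Device (Rule r H M) S T) (h : (Fin T → Bool) → Bool),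
        1 ≤ S → D.ChangesAtMost a → r * ((D.negs + 1) * S) ≤ 2 ^ H →
        ∑ x with (h (D.val x) = true ↔ Solvable x), μ x
          ≤ 1 / 2 + 3 * ((T + 1) * (a + 1)) / (2 * r)) ∧
      ∀ (S T a : ℕ) (D : Device (Rule r H M) S T) (h : (Fin T → Bool) → Bool),
        1 ≤ S → D.DChangesAtMost a →
        r ^ 2 * (2 ^ 24 * (H + 1) ^ 11) * ((D.negs + 1) * (2 * S) ^ Nat.clog 2 S) ≤ 2 ^ H →
        ∑ x with (h (D.dval x) = true ↔ Solvable x), μ x
          ≤ 1 / 2 + 3 * ((T + 1) * (a + 1)) / (2 * r) := by
  subst hM
  exact ⟨card_rule_le r H, fun _ _ D => ⟨D.changesAtMost_weight, D.dchangesAtMost_weight⟩,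
    grid_avg_both r H hH hr⟩

end Pool.Agent.Held994.PathSystemsFewNegations
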