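import Pool.Agent.PSM.RMain

/-!
# Universality of regular expressions against cellular automata of all dimensions

Definitions (`Pool/Agent/PSM/CADefs.lean`, `Pool/Agent/PSM/RDefs.lean`). `CA D Γ Q` is a cellular automaton on `ℤ ^ D`
with the state set `Q` and the neighbourhood `{-1, 0, 1} ^ D`; the input, a word over `Γ`, is written on the first axis
from the origin on, and `CA.Result M T w b` says that the first output of the origin comes within `T` steps and is `b`.
`str r` is the regular expression `r` over `{0, 1}` as a word over seven symbols (Polish notation). `Answers M T r`: the
automaton `M`, reading `str r`, accepts within `T` steps or never, and it accepts exactly if every word over `{0, 1}`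
matches `r`.
-/

set_option autoImplicit false

namespace Pool.Agent.Results.MP_994c82_lc.RegularExpressions

open Pool.Agent.PSM

open Classical in
/-- **Universality of regular expressions is not in linear time of cellular automata of any dimension, even on average
over the expressions `r n x`.** There are words `u1, u2, u3, u4, g, s false, s true` over the seven symbols (the last
two of one positive length) and regular expressions `r n x`, `x` a word of length `n`, written
`u1 s(x_1) .. s(x_n) u2 g^n u3 g^n u4`, such that for every dimension `D = d + 1` there is a constant `C` with the
following property. Let `N` be the common length of the expressions `r n x` for the words `x` of length `n`, let `M` be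
a cellular automaton of dimension `D` with `q` states, `C q ^ (3 ^ D + 1) ≤ N` and
`T ≤ (N / (C q log₂ N)) ^ (1 + 1 / D)`. Then `M` answers correctly, within `T` steps, whether `r n x` generates all
words for at most a fraction `1 / 2 + 2 ^ (- n / 8)` of the words `x` of length `n`. -/
theorem result :
    ∃ (u1 u2 u3 u4 g : List (Fin 7)) (s : Bool → List (Fin 7))
      (r : (n : ℕ) → (Fin n → Bool) → RegularExpression Bool), 0 < (s false).length ∧
      (s true).length = (s false).length ∧
      (∀ (n : ℕ) (x : Fin n → Bool), str (r n x) = u1 ++ (List.ofFn x).flatMap s ++ u2 ++
        (List.replicate n g).flatten ++ u3 ++ (List.replicate n g).flatten ++ u4) ∧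
      ∀ d : ℕ, ∃ C : ℕ, ∀ (n N : ℕ) (Q : Type) [Fintype Q] (M : CA (d + 1) (Fin 7) Q) (T : ℕ),
        (∀ x : Fin n → Bool, (str (r n x)).length = N) →
        C * Fintype.card Q ^ (3 ^ (d + 1) + 1) ≤ N →
        T ^ (d + 1) * (C * Fintype.card Q * Nat.log 2 N) ^ (d + 2) ≤ N ^ (d + 2) →
        2 * (Finset.univ.filter fun x : Fin n → Bool => Answers M T (r n x)).card ≤ 2 ^ n + 2 ^ (n - n / 8) :=
  regexN

end Pool.Agent.Results.MP_994c82_lc.RegularExpressions
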