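import Pool.Agent.NUM.BCor

/-!
# 3SAT is not decided in time `n ^ c` by random access machines whose data flow has small separators
-/

namespace Pool.Agent.Results.MP_994c82_lc.SatSeparatorTime

open Pool.Agent.NUM

/-- Let `0 ≤ γ < 1 ≤ c`, `0 ≤ b`, `t = 1 - γ`, `q = t / (c (c - 1 + γ + b))` and suppose that
`c ^ 2 - 1 + b c (1 + t + ⋯ + t ^ n) < q + ⋯ + q ^ n + c q ^ (n + 1)` for some `n`.  Then there are
`δ > 0`, `A` and `M₀` such that every interval `[M, A M]`, `M ≥ M₀`, contains an `m` such that no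
random access program of size at most `2 ^ (δ m)` decides within `2 ^ (c m)` steps the satisfiability of
3-CNF formulas with `2 ^ m` clauses and `2 ^ m` variables in such a way that for each formula every set
`W` of states of the computation has a balanced separator of at most `2 ^ ((b + δ) m) |W| ^ γ` states in
the graph of the data flow. -/
theorem result (b γ c : ℝ) (hb : 0 ≤ b) (h0 : 0 ≤ γ) (h1 : γ < 1) (h2 : 1 ≤ c)
    (h3 : ∃ n : ℕ, c ^ 2 - 1 + b * c * ∑ i ∈ Finset.range (n + 1), (1 - γ) ^ i <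
      ∑ i ∈ Finset.range n, ((1 - γ) / (c * (c - 1 + γ + b))) ^ (i + 1) +
        c * ((1 - γ) / (c * (c - 1 + γ + b))) ^ (n + 1)) :
    ∃ (δ : ℝ) (A M₀ : ℕ), 0 < δ ∧ ∀ M : ℕ, M₀ ≤ M → ∃ m : ℕ, M ≤ m ∧ m ≤ A * M ∧
      ∀ (G : List Ins) (d s T K : ℕ), RSz s d G →
      (s : ℝ) ≤ 2 ^ (δ * m) → (T : ℝ) ≤ 2 ^ (c * m) → (K : ℝ) ≤ 2 ^ ((b + δ) * m) →
        ¬ RamDecides G d (S3.satLen m) T γ K (S3.SAT m) :=
  sat_ram_bound₂' hb h0 h1 h2 h3

end Pool.Agent.Results.MP_994c82_lc.SatSeparatorTime
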