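import Pool.Agent.KE.ParamsS
import Pool.Agent.KE.Final
import Pool.Agent.KE.PTime

/-! The bits of exponentiation in quotients of the polynomial ring over the field with two elements need
`c N log (N / S) / log log (N / S)` tests on randomised programs with an unlimited stack, two-sided error
and `2 ^ S` nodes. -/

namespace Pool.Agent.Results.MP_994c82_lc.TwoSidedTime

open Pool.Agent.KNL Pool.Agent.KD Pool.Agent.KE

open Classical in
/-- **Randomised machines with two-sided error, small space and an unlimited stack need time
`c N log (N / S) / log log (N / S)` for a natural language in P.** The language `Lang` of the bits of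
exponentiation modulo a polynomial over the field with two elements is in P. There is `c > 0` such that,
if `N / S` is at least a constant, the following holds. Let a finite distribution on deterministic
programs with a stack and at most `2 ^ S` nodes be such that every word of length `N` is decided, for
membership in `Lang`, with probability more than `3 / 5` correctly and, if it is accepted, with at most
`T` tests. Then `T ≥ c N log (N / S) / log log (N / S)`. Moreover, for a constant `c` and all `k ≥ 2` and
`N ≥ k ^ (c k)` there is a nonempty set `A` of words of length `N` such that, for every deterministic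
program with a stack and at most `2 ^ (N / k ^ (c k))` nodes, to be accepted with at most `k N` tests
agrees with membership in `Lang` for at most `3 / 5` of the words of `A`. -/
theorem result :
    InP KE.Lang ∧
      (∃ c x0 : ℝ, 0 < c ∧ 1 ≤ x0 ∧ ∀ N S : ℕ, 1 ≤ S → x0 * S ≤ N →
        ∀ (ι : Type) [Fintype ι] (w : ι → ℝ) (V Γ : ι → Type) [∀ i, Fintype (V i)]
          (P : ∀ i, SBP (V i) (Γ i) (Fin N)), (∀ i, 0 ≤ w i) → ∑ i, w i = 1 →
          (∀ i, Det (P i) ∧ Fintype.card (V i) ≤ 2 ^ S) →
          ∀ T : ℕ, (∀ y, 3 / 5 < ∑ i, if Correct KE.Lang (P i) T y then w i else 0) →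
            c * N * Real.log (N / S) / Real.log (Real.log (N / S)) ≤ T) ∧
      ∃ c : ℕ, ∀ k : ℕ, 2 ≤ k → ∀ N : ℕ, k ^ (c * k) ≤ N →
        ∃ A : Finset (Fin N → Bool), A.Nonempty ∧
          ∀ (V Γ : Type) [Fintype V] (P : SBP V Γ (Fin N)), Det P →
            (Fintype.card V : ℝ) ≤ (2 : ℝ) ^ ((N : ℝ) / (k : ℝ) ^ (c * k)) →
            ∀ G ⊆ A, (∀ y ∈ G, ((∃ l, P.AccWalk y l ∧ l.length ≤ k * N) ↔ KE.Lang (List.ofFn y))) →
              (G.card : ℝ) ≤ 3 / 5 * A.card :=
  ⟨inP_lang, time_two_stack KE.Lang quant_setsS, quant_setsS⟩

end Pool.Agent.Results.MP_994c82_lc.TwoSidedTime
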