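import Pool.Agent.KVT.HLow
import Pool.Agent.KVT.HUp
import Pool.Agent.KVT.HPT
import Pool.Agent.KVT.HNP
import Pool.Agent.KVT.HdFin

/-! Time bounds for nondeterministic algorithms and for algorithms with two-sided error, with small space and
an unlimited stack, for the evaluation of given branching programs at given points: languages that are complete
for L, NL, P, NP and PSPACE and whose complement (for L) is verified quickly with one guess. -/

namespace Pool.Agent.Results.MP_994c82_lc.VerifyTime

open Pool.Agent.KNL Pool.Agent.KD Pool.Agent.KH Pool.Agent.KVT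
open Pool.Agent.KCV (len)
open Pool.Agent.KMQ (Halt Answers)

/-- `u` is a probability distribution on the words of length `M` -/
def Dist {M : ℕ} (u : (Fin M → Bool) → ℝ) : Prop := (∀ y, 0 ≤ u y) ∧ ∑ y, u y = 1

open Classical in
/-- **The lower bounds** `X (log R) ^ δ` and `c X log R / log log R` for finite distributions on programs with a
stack and at most `2 ^ S` nodes for the language `K`:

* if the programs accept only words of `K` and accept words of `ν` by walks with at most `T` tests with
  probability at least `2 ^ (-S)`, then `T ≥ X (log R) ^ δ`, and `T ≥ c X log R / log log R` if the programs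
  are deterministic;
* if `two` holds, the programs are deterministic, and accept words of `μ₁` by walks with at most `T` tests with
  probability at least `α` and words of `μ₀` with probability at most `β ≤ α - 2 ^ (-S)`, then
  `T ≥ c (1 - β / α) X log R / log log R`. -/
def LowerBounds (c δ X R : ℝ) (two : Prop) {M : ℕ} (ν μ₁ μ₀ : (Fin M → Bool) → ℝ) (S : ℕ)
    (K : List Bool → Prop) : Prop :=
  ∀ (ι : Type) [Fintype ι] (w : ι → ℝ) (U Γ : ι → Type) [∀ i, Fintype (U i)]
    (P : ∀ i, SBP (U i) (Γ i) (Fin M)), (∀ i, 0 ≤ w i) → ∑ i, w i = 1 →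
    (∀ i, Fintype.card (U i) ≤ 2 ^ S) → ∀ T : ℕ,
      ((∀ i y l, (P i).AccWalk y l → K (List.ofFn y)) →
        1 / 2 ^ S ≤ ∑ y, ν y * ∑ i, (if ∃ l, (P i).AccWalk y l ∧ l.length ≤ T then w i else 0) →
        X * Real.log R ^ δ ≤ T ∧ ((∀ i, Det (P i)) → c * X * Real.log R / Real.log (Real.log R) ≤ T)) ∧
      (two → (∀ i, Det (P i)) → ∀ α β : ℝ, 1 / 2 ^ S ≤ α - β →
        α ≤ ∑ y, μ₁ y * ∑ i, (if ∃ l, (P i).AccWalk y l ∧ l.length ≤ T then w i else 0) →
        ∑ y, μ₀ y * ∑ i, (if ∃ l, (P i).AccWalk y l then w i else 0) ≤ β →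
        c * (1 - β / α) * X * Real.log R / Real.log (Real.log R) ≤ T)

open Classical in
/-- **The evaluation of branching programs at many points.** A word `y` of length `M` begins with two numbers
`n = hn y` and `D = hD y` with `len M = Nat.log 2 M + 1` digits each. The rest of the word, of length
`N = rem M = M - 2 * len M`, is read as `N / (6 * len N * D)` branching programs with `D` nodes (the number of
the variable and those of the two successors have `len N` digits each; the program starts at the node `D - 1`,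
a successor with a smaller number than the node is the next node, the node itself means reject, and a larger
number means accept), followed, in the second half, by `N / (2 * n)` points of `n` bits. All programs have to
accept all points. The languages differ in the values of the variables with numbers at least `n`: they are 0 in
`LV`, free at each visit of a node in `LW`, existentially (even numbers) or universally (odd numbers) chosen at
each visit in `LA`, chosen once for all programs and points in `LX`, and quantified existentially (even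
numbers) or universally (odd numbers), in the order of their numbers, in `LQ`.

* `LV`, `LW`, `LA` are in P and `LX` is in NP.
* `AgreesL K` says that `K` agrees with `LV` on all words in which all variables have numbers less than `n`
  and all successors of a node `v` have numbers at least `v - 7`. This is true for all five languages.
* `LV` is decided by a deterministic program without stack and with at most `25 (M + 1) ^ 5` nodes and
  `2 * len M + N ^ 2 / (4 n)` tests. The words that are not in `LV` are accepted by a program without stack and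
  with at most `27 (M + 1) ^ 7` nodes that guesses only the first edge, is deterministic afterwards, and makes at
  most `2 * len M + D (2 * len N + 1)` tests.
* There are `c, δ, x0 > 0` such that for all `M` and `S ≥ 1` with `x0 * S * (len M) ^ 3 ≤ M` there are
  distributions `ν`, `μ₁` and `μ₀` on the words of length `M` with `D ^ 2 ≤ M S` such that for every `K` that
  agrees with `LV`, the words of `ν` and `μ₁` are in `K` and those of `μ₀` are not in `K`, and the lower bounds
  hold with `X = M` and `R = M / S` for the programs with at most `2 ^ S` nodes.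
* There are `c, δ, x0 > 0` such that for all `M` and all `n`, `D` and `r ≥ x0` with `r ≤ n`, `r ≤ D`,
  `6 * len N * D ≤ N` and `12 * len N * r * n ≤ N` there are distributions `ν`, `μ₁` and `μ₀` on the words of
  length `M` with the numbers `n` and `D` such that for every `K` that agrees with `LV`, the words of `ν` and
  `μ₁` are in `K` and those of `μ₀` are not in `K`, and for all `S ≥ 1` with `r * (S + len N) ≤ n` the lower
  bounds hold with `X = N` and `R = r` for the programs with at most `2 ^ S` nodes, the one for two-sided error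
  if `r * S ≤ D`. -/
theorem result :
    (InP LV ∧ InP LW ∧ InP LA ∧ Pool.Agent.NegLim.InNP fun y => decide (LX y)) ∧
    (AgreesL LV ∧ AgreesL LW ∧ AgreesL LA ∧ AgreesL LX ∧ AgreesL LQ) ∧
    (∀ M : ℕ,
      (∃ (U : Type) (_ : Fintype U) (P : SBP U Empty (Fin M)) (rej : U), Fintype.card U ≤ 25 * (M + 1) ^ 5 ∧
        Det P ∧ Halt P rej ∧ rej ≠ P.acc ∧
        ∀ y, Answers LV P rej (2 * len M + rem M ^ 2 / (4 * hn (List.ofFn y))) y) ∧
      ∃ (U : Type) (_ : Fintype U) (P : SBP U Empty (Fin M)) (m : ℕ), Fintype.card U ≤ 27 * (M + 1) ^ 7 ∧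
        m ≤ (M + 1) ^ 2 ∧ GuessOnce P m ∧ (∀ y, (∃ l, P.AccWalk y l) ↔ ¬ LV (List.ofFn y)) ∧
        ∀ y l, P.AccWalk y l → l.length ≤ 2 * len M + hD (List.ofFn y) * (2 * len (rem M) + 1)) ∧
    (∃ c δ x0 : ℝ, 0 < c ∧ 0 < δ ∧ 1 ≤ x0 ∧ ∀ M S : ℕ, 1 ≤ S → x0 * S * (len M : ℝ) ^ 3 ≤ M →
      ∃ ν μ₁ μ₀ : (Fin M → Bool) → ℝ, Dist ν ∧ Dist μ₁ ∧ Dist μ₀ ∧
        (∀ y, ν y ≠ 0 ∨ μ₁ y ≠ 0 ∨ μ₀ y ≠ 0 → hD (List.ofFn y) ^ 2 ≤ M * S) ∧
        ∀ K : List Bool → Prop, AgreesL K →
          (∀ y, ¬ K (List.ofFn y) → ν y = 0 ∧ μ₁ y = 0) ∧ (∀ y, K (List.ofFn y) → μ₀ y = 0) ∧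
          LowerBounds c δ M (M / S) True ν μ₁ μ₀ S K) ∧
    ∃ c δ x0 : ℝ, 0 < c ∧ 0 < δ ∧ 1 ≤ x0 ∧
      ∀ M N n D r : ℕ, N = rem M → x0 ≤ r → r ≤ n → r ≤ D → 6 * len N * D ≤ N → 12 * len N * r * n ≤ N →
        ∃ ν μ₁ μ₀ : (Fin M → Bool) → ℝ, Dist ν ∧ Dist μ₁ ∧ Dist μ₀ ∧
          (∀ y, ν y ≠ 0 ∨ μ₁ y ≠ 0 ∨ μ₀ y ≠ 0 → hn (List.ofFn y) = n ∧ hD (List.ofFn y) = D) ∧
          ∀ K : List Bool → Prop, AgreesL K →
            (∀ y, ¬ K (List.ofFn y) → ν y = 0 ∧ μ₁ y = 0) ∧ (∀ y, K (List.ofFn y) → μ₀ y = 0) ∧
            ∀ S : ℕ, 1 ≤ S → r * (S + len N) ≤ n → LowerBounds c δ N r (r * S ≤ D) ν μ₁ μ₀ S K := by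
  refine ⟨⟨inP_LV, inP_LW, inP_LA, inNP_LX⟩, ⟨agreesL_V, agreesL_W, agreesL_A, agreesL_E, agreesL_Q⟩,
    fun M => ⟨dtH M, upH M⟩, ?_, hardL⟩
  obtain ⟨c, δ, x0, hc, hδ, hx0, h⟩ := hardS
  refine ⟨c, δ, x0, hc, hδ, hx0, fun M S hS hM => ?_⟩
  obtain ⟨ν, μ₁, μ₀, hν, hμ₁, hμ₀, hD, h⟩ := h M S hS hM
  refine ⟨ν, μ₁, μ₀, hν, hμ₁, hμ₀, hD, fun K hK => ?_⟩
  obtain ⟨h1, h0, h⟩ := h K hK
  refine ⟨h1, h0, ?_⟩
  intro ι _ w U Γ _ P hw0 hw1 hU T
  obtain ⟨h2, h3⟩ := h ι w U Γ P hw0 hw1 hU T
  exact ⟨h2, fun _ => h3⟩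

end Pool.Agent.Results.MP_994c82_lc.VerifyTime
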